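import Pool.Agent.Work.MP_177351_gt.Measure

/-!
# Joins of convex bodies (in particular all pyramids) are determined by their covariogram
-/

set_option autoImplicit false

open Set MeasureTheory Module

namespace Pool.Agent.Results.MP_177351_gt.Joins

/-- The covariogram `g_K(x) = vol (K ∩ (K + x))`. -/
noncomputable def covariogram {n : ℕ} (K : Set (EuclideanSpace ℝ (Fin n)))
    (x : EuclideanSpace ℝ (Fin n)) : ENNReal :=
  volume (K ∩ ((fun y => y + x) '' K))

/-- `K` is determined by its covariogram among all convex bodies, up to translations and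
point reflections. -/
def Determined {n : ℕ} (K : Set (EuclideanSpace ℝ (Fin n))) : Prop :=
  ∀ H : Set (EuclideanSpace ℝ (Fin n)), Convex ℝ H → IsCompact H →
    (∀ x, covariogram H x = covariogram K x) →
      ∃ y, H = (fun x => x + y) '' K ∨ H = (fun x => -x + y) '' K

/-- `K` is directly indecomposable: in every representation `K = L + M` with convex bodies
`L`, `M` in complementary linear subspaces, `L` or `M` is a single point. -/
def DirectlyIndecomposable {n : ℕ} (K : Set (EuclideanSpace ℝ (Fin n))) : Prop :=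
  ∀ (E₁ E₂ : Submodule ℝ (EuclideanSpace ℝ (Fin n))) (L M : Set (EuclideanSpace ℝ (Fin n))),
    IsCompl E₁ E₂ → L ⊆ E₁ → M ⊆ E₂ → Convex ℝ L → IsCompact L → Convex ℝ M → IsCompact M →
      K = {z | ∃ x ∈ L, ∃ y ∈ M, x + y = z} → (∃ x, L = {x}) ∨ (∃ y, M = {y})

/-- If `F`, `G` are nonempty convex bodies in `ℝ^n` with `dim F + dim G = n - 1` whose convex
hull `K` of the union has nonempty interior, then `K` is directly indecomposable and determined
by its covariogram. -/
theorem result {n : ℕ} {F G : Set (EuclideanSpace ℝ (Fin n))}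
    (hF : Convex ℝ F) (hFc : IsCompact F) (hFn : F.Nonempty)
    (hG : Convex ℝ G) (hGc : IsCompact G) (hGn : G.Nonempty)
    (hdim : finrank ℝ (vectorSpan ℝ F) + finrank ℝ (vectorSpan ℝ G) + 1 = n)
    (hint : (interior (convexHull ℝ (F ∪ G))).Nonempty) :
    DirectlyIndecomposable (convexHull ℝ (F ∪ G)) ∧ Determined (convexHull ℝ (F ∪ G)) := by
  obtain ⟨l, m, J⟩ := Pool.MP_177351_gt.join_of_dim hF hFc hFn hG hGc hGn
    (by rw [hdim, finrank_euclideanSpace, Fintype.card_fin]) hint
  constructor
  · intro E₁ E₂ L M hE hL hM _ _ _ _ hK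
    obtain ⟨z, hz⟩ : (convexHull ℝ (F ∪ G)).Nonempty := hint.mono interior_subset
    obtain ⟨x, hx, y, hy, -⟩ : ∃ x ∈ L, ∃ y ∈ M, x + y = z := by
      rw [hK] at hz
      exact hz
    rcases J.indecomposable hE hL hM hK with h | h
    · exact Or.inl ⟨x, h.eq_singleton_of_mem hx⟩
    · exact Or.inr ⟨y, h.eq_singleton_of_mem hy⟩
  · intro H hH hHc hcov
    rcases J.determined_by_cov volume (convex_convexHull ℝ _) hint hH hHc hcov with ⟨c, hc⟩ | ⟨c, hc⟩
    · refine ⟨c, Or.inl ?_⟩
      ext x
      rw [hc, mem_image]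
      constructor
      · intro h
        exact ⟨x - c, h, sub_add_cancel x c⟩
      · rintro ⟨y, hy, rfl⟩
        rwa [add_sub_cancel_right]
    · refine ⟨c, Or.inr ?_⟩
      ext x
      rw [hc, mem_image, Set.mem_neg]
      constructor
      · intro h
        exact ⟨-(x - c), h, by abel⟩
      · rintro ⟨y, hy, rfl⟩
        rwa [add_sub_cancel_right, neg_neg]

end Pool.Agent.Results.MP_177351_gt.Joins
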