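import Pool.Agent.Work.MP_177351_gt.AsmE

/-!
# Directly indecomposable polytopes are determined by their covariogram
-/

set_option autoImplicit false

open Set MeasureTheory Module

namespace Pool.Agent.Results.MP_177351_gt.Polytopes

/-- The covariogram `g_K(x) = vol (K ∩ (K + x))`. -/
noncomputable def covariogram {n : ℕ} (K : Set (EuclideanSpace ℝ (Fin n)))
    (x : EuclideanSpace ℝ (Fin n)) : ENNReal :=
  volume (K ∩ ((fun y => y + x) '' K))

/-- `K` is determined by its covariogram among all convex bodies, up to translations and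
point reflections. -/
def Determined {n : ℕ} (K : Set (EuclideanSpace ℝ (Fin n))) : Prop :=
  ∀ H : Set (EuclideanSpace ℝ (Fin n)), Convex ℝ H → IsCompact H →
    (∀ x, covariogram H x = covariogram K x) →
      ∃ y, H = (fun x => x + y) '' K ∨ H = (fun x => -x + y) '' K

/-- `K` is directly indecomposable: in every representation `K = L + M` with convex bodies
`L`, `M` in complementary linear subspaces, `L` or `M` is a single point. -/
def DirectlyIndecomposable {n : ℕ} (K : Set (EuclideanSpace ℝ (Fin n))) : Prop :=
  ∀ (E₁ E₂ : Submodule ℝ (EuclideanSpace ℝ (Fin n))) (L M : Set (EuclideanSpace ℝ (Fin n))),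
    IsCompl E₁ E₂ → L ⊆ E₁ → M ⊆ E₂ → Convex ℝ L → IsCompact L → Convex ℝ M → IsCompact M →
      K = {z | ∃ x ∈ L, ∃ y ∈ M, x + y = z} → (∃ x, L = {x}) ∨ (∃ y, M = {y})

/-- A directly indecomposable polytope with interior points in `ℝ^n`, `n ≥ 2`, is determined by
its covariogram among all convex bodies. -/
theorem result {n : ℕ} (hn : 2 ≤ n) (S : Finset (EuclideanSpace ℝ (Fin n)))
    (hi : (interior (convexHull ℝ (S : Set (EuclideanSpace ℝ (Fin n))))).Nonempty)
    (hDI : DirectlyIndecomposable (convexHull ℝ (S : Set (EuclideanSpace ℝ (Fin n))))) :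
    Determined (convexHull ℝ (S : Set (EuclideanSpace ℝ (Fin n)))) := fun _ hH hHc hcov =>
  Pool.Agent.Covg.Transfer.main hn S hi hDI hH hHc hcov

end Pool.Agent.Results.MP_177351_gt.Polytopes
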